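import Pool.Agent.W_a51130_h62.Pos.G

/-!
# Transverse gluings with complementary fibers are all quasi-isometric

`Piece m`: the fundamental group of a complete finite volume hyperbolic `(m+1)`-manifold `N` with
exactly one cusp, which is toric, as a group of isometries of the upper half space.  `P.TGrp d`,
`P.TCusp d`: the fundamental groups of the piece `N̄ × T^d` and of its boundary torus.
`TAmalgam P d ψ`: the fundamental group of the closed manifold obtained by gluing the two pieces
`N̄ᵢ × T^(d i)` along their boundary tori by `ψ`.

If `m 0 = d 1` and `m 1 = d 0` (so that the fibers of two transversally glued pieces span the tangent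
space of the boundary torus), then there are transverse gluings, and any two of them have
quasi-isometric fundamental groups.
-/

namespace Pool.Agent.Results.MP_a51130_gt.ComplementaryFibers

open QIG

theorem result (m : Fin 2 → ℕ) (P : ∀ i, Piece (m i)) (d : Fin 2 → ℕ)
    (h0 : m 1 = d 0) (h1 : m 0 = d 1) :
    (∃ ψ : (P 0).TCusp (d 0) ≃* (P 1).TCusp (d 1), Transverse ψ) ∧
      ∀ ψ ψ' : (P 0).TCusp (d 0) ≃* (P 1).TCusp (d 1), Transverse ψ → Transverse ψ' →
        QuasiIsom (TAmalgam P d ψ) (TAmalgam P d ψ') :=
  ⟨exists_transverse P d h0 h1, fun ψ ψ' h h' => tamalgam_complementary P d h0 h1 ψ ψ' h h'⟩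

end Pool.Agent.Results.MP_a51130_gt.ComplementaryFibers
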