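import Pool.Agent.W_a51130_h62.ShortEq
import Pool.Agent.W_a51130_h68.KM.Main

/-!
# Gluings of one-cusped hyperbolic pieces are almost never quasi-isometric

`Piece m`: the fundamental group of a complete finite volume hyperbolic `(m+1)`-manifold with exactly
one cusp, which is toric, as a group of isometries of the upper half space.  `Amalgam P ψ`: the
amalgamated product `Γ₀ *_ψ Γ₁` along the cusp groups, i.e. the fundamental group of the closed
manifold obtained by gluing the truncated manifolds along their boundary tori.  `QuasiIsom`: finitely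
generated and quasi-isometric.

1. Every `Amalgam P ψ` is finitely generated, and `ψ` has a linear extension `Ψ`.
2. Rigidity (`m ≥ 2`): if `Amalgam P ψ` and `Amalgam P' ψ'` are quasi-isometric then `Ψ'` or `Ψ'⁻¹` is
   `A₁ Ψ A₀⁻¹` with similarities `A₀, A₁` of `R^m`.
3. Any two pieces have infinitely many pairwise non quasi-isometric gluings (`m ≥ 2`).
4. An explicit piece with `m = 2` (the figure-eight sister, a congruence subgroup of `PSL₂(ℤ[ω])`)
   and two explicit gluings of two copies of it which are not quasi-isometric.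
5. A piece with `m = 3` exists (an explicit arithmetic group of isometries of the upper half space of
   dimension `4`), so that 3. gives counterexamples of dimension `4` as well.
-/

namespace Pool.Agent.Results.MP_a51130_gt.GluingsNotQuasiIsometric

open QIG

theorem result :
    (∀ (m : ℕ) (P : Fin 2 → Piece m) (ψ : (P 0).Cusp ≃* (P 1).Cusp),
      Group.FG (Amalgam P ψ) ∧ ∃ Ψ : Lin m, ExtendsTo ψ Ψ) ∧
    (∀ m : ℕ, 2 ≤ m → ∀ (P P' : Fin 2 → Piece m) (ψ : (P 0).Cusp ≃* (P 1).Cusp)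
      (ψ' : (P' 0).Cusp ≃* (P' 1).Cusp) (Ψ Ψ' : Lin m), ExtendsTo ψ Ψ → ExtendsTo ψ' Ψ' →
        QuasiIsom (Amalgam P ψ) (Amalgam P' ψ') → SimilarTo Ψ Ψ') ∧
    (∀ m : ℕ, 2 ≤ m → ∀ P : Fin 2 → Piece m, ∃ ψ : ℕ → ((P 0).Cusp ≃* (P 1).Cusp),
      ∀ i j, i ≠ j → ¬ QuasiIsom (Amalgam P (ψ i)) (Amalgam P (ψ j))) ∧
    (∃ (P : Piece 2) (ψ : P.Cusp ≃* P.Cusp), Sister P ∧ Shear P ψ ∧
      ¬ QuasiIsom (Amalgam (fun _ => P) (MulEquiv.refl P.Cusp)) (Amalgam (fun _ => P) ψ)) ∧
    Nonempty (Piece 3) :=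
  ⟨fun _ P ψ => ⟨fg_amalgam P ψ, exists_extendsTo _ _ ψ⟩,
    fun _ hm P P' ψ ψ' Ψ Ψ' h1 h2 h => rigid_amalgam hm P P' ψ ψ' Ψ Ψ' h1 h2 h,
    fun _ hm P => many_amalgams hm P, two_amalgams, ⟨KM.km⟩⟩

end Pool.Agent.Results.MP_a51130_gt.GluingsNotQuasiIsometric
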